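import Pool.Agent.MP_089fcb_co.H7.Final
import Pool.Agent.MP_089fcb_co.H7.Arith
import Pool.Agent.MP_089fcb_co.H7.Steiner
import Pool.Agent.MP_089fcb_co.H7.Spec1
import Pool.Agent.MP_089fcb_co.H7.Spec2
import Pool.Agent.MP_089fcb_co.H7.Lloyd
import Pool.Agent.MP_089fcb_co.H21.Bridge
import Pool.Agent.MP_089fcb_co.H7.KRoot
import Pool.Agent.MP_089fcb_co.H7.KSmall
import Pool.Agent.MP_089fcb_co.H7.Prod
import Pool.Agent.MP_089fcb_co.H7.PP
import Pool.Agent.MP_089fcb_co.H7.One

set_option autoImplicit false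

open Finset

namespace Pool.Agent.MP_089fcb_co.H93

open Pool.Agent.MP_089fcb_co.H7

theorem small_weight {α : Type} [Fintype α] [DecidableEq α] {w e : ℕ} {C : Finset (Finset α)}
    (h : IsPerf w e C) (hw : w ≤ Fintype.card α) (he : 1 ≤ e) (h2 : 2 ≤ C.card) :
    w ≤ 2 * e + 1 := by
  by_contra hc
  have hT : TwoLogStmt := Pool.Agent.MP_089fcb_co.H21.twoLogStmt
  exact Final.no_code Steiner.steiner
    (Lloyd.lloyd Spec1.ann Spec1.design Spec2.ball Spec2.sp)
    (Arith.arith PP.pp PP.anchor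
      (H7.One.one hT KRoot.k1 KRoot.k2 KRoot.k3 KSmall.k4 KSmall.k5) hT
      H7.Prod.prod KSmall.k5 KSmall.k6 KSmall.k7 H7.Prod.k8)
    (w' := Fintype.card α - w) h (by omega) he h2 (by omega)

/-- A perfect code with at least two words and positive radius is a complementary pair. -/
theorem pair_of_perf {α : Type} [Fintype α] [DecidableEq α] {w e : ℕ} {C : Finset (Finset α)}
    (h : IsPerf w e C) (hw : w ≤ Fintype.card α) (he : 1 ≤ e) {A B : Finset α} (hA : A ∈ C)
    (hB : B ∈ C) (hne : A ≠ B) :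
    w = 2 * e + 1 ∧ B = Aᶜ := by
  have h2 : 2 ≤ C.card := Finset.one_lt_card.2 ⟨A, hA, B, hB, hne⟩
  have hle := small_weight h hw he h2
  have hdis : ∀ D ∈ C, ∀ E ∈ C, D ≠ E → w = 2 * e + 1 ∧ Disjoint D E := by
    intro D hD E hE hDE
    have h1 := Final.dist_ge h hD hE hDE
    have h3 : (D \ E).card ≤ D.card := Finset.card_le_card Finset.sdiff_subset
    rw [h.1 D hD] at h3
    refine ⟨by omega, ?_⟩
    rw [← Finset.sdiff_eq_self_iff_disjoint]
    exact Finset.eq_of_subset_of_card_le Finset.sdiff_subset (by rw [h.1 D hD]; omega)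
  obtain ⟨hw2, hAB⟩ := hdis A hA B hB hne
  refine ⟨hw2, ?_⟩
  by_contra hcon
  have hz : ∃ z, z ∉ A ∧ z ∉ B := by
    by_contra hz
    push Not at hz
    apply hcon
    ext z
    rw [Finset.mem_compl]
    exact ⟨fun hzB hzA => Finset.disjoint_left.1 hAB hzA hzB, hz z⟩
  obtain ⟨z, hzA, hzB⟩ := hz
  obtain ⟨P, hP1, hP2⟩ := Finset.exists_subset_card_eq (s := A) (n := e)
    (by rw [h.1 A hA]; omega)
  obtain ⟨Q, hQ1, hQ2⟩ := Finset.exists_subset_card_eq (s := B) (n := e)
    (by rw [h.1 B hB]; omega)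
  have hPQ : Disjoint P Q := Finset.disjoint_of_subset_left hP1
    (Finset.disjoint_of_subset_right hQ1 hAB)
  have hzP : z ∉ P := fun hh => hzA (hP1 hh)
  have hzQ : z ∉ Q := fun hh => hzB (hQ1 hh)
  have hX : (insert z (P ∪ Q)).card = w := by
    rw [Finset.card_insert_of_notMem (by simp [hzP, hzQ]), Finset.card_union_of_disjoint hPQ]
    omega
  obtain ⟨D, ⟨hD, hDe⟩, -⟩ := h.2 _ hX
  by_cases hDA : D = A
  · subst hDA
    have : (insert z Q).card ≤ (insert z (P ∪ Q) \ D).card := by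
      refine Finset.card_le_card fun y hy => ?_
      rw [Finset.mem_sdiff]
      rcases Finset.mem_insert.1 hy with rfl | hy
      · exact ⟨Finset.mem_insert_self _ _, hzA⟩
      · exact ⟨Finset.mem_insert_of_mem (Finset.mem_union_right _ hy),
          fun hh => Finset.disjoint_left.1 hAB hh (hQ1 hy)⟩
    rw [Finset.card_insert_of_notMem hzQ] at this
    omega
  by_cases hDB : D = B
  · subst hDB
    have : (insert z P).card ≤ (insert z (P ∪ Q) \ D).card := by
      refine Finset.card_le_card fun y hy => ?_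
      rw [Finset.mem_sdiff]
      rcases Finset.mem_insert.1 hy with rfl | hy
      · exact ⟨Finset.mem_insert_self _ _, hzB⟩
      · exact ⟨Finset.mem_insert_of_mem (Finset.mem_union_left _ hy),
          fun hh => Finset.disjoint_left.1 hAB (hP1 hy) hh⟩
    rw [Finset.card_insert_of_notMem hzP] at this
    omega
  have h1 := (hdis D hD A hA hDA).2
  have h3 := (hdis D hD B hB hDB).2
  have : (P ∪ Q).card ≤ (insert z (P ∪ Q) \ D).card := by
    refine Finset.card_le_card fun y hy => ?_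
    rw [Finset.mem_sdiff]
    refine ⟨Finset.mem_insert_of_mem hy, fun hh => ?_⟩
    rcases Finset.mem_union.1 hy with hy | hy
    · exact Finset.disjoint_left.1 h1 hh (hP1 hy)
    · exact Finset.disjoint_left.1 h3 hh (hQ1 hy)
  rw [Finset.card_union_of_disjoint hPQ] at this
  omega

end Pool.Agent.MP_089fcb_co.H93
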